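import Pool.Agent.Lib.MP_ca9be0_an.UB.Final

namespace Pool.Agent.Results.MP_ca9be0_an.Exact

open Pool.Agent.Lib.MP_ca9be0_an

/-- The Pythagoras number of `C^{k,α}(ℝ^n)` is one more than the number of monomials of degree at
most `k / 2` in `n - 1` variables. -/
theorem result (k n : ℕ) (α : ℝ) (hk : 2 ≤ k) (hn : 1 ≤ n) (h0 : 0 < α) (h1 : α ≤ 1) :
    pyth k n α = (((n - 1 + k / 2).choose (k / 2) + 1 : ℕ) : ℕ∞) :=
  le_antisymm (Pool.Agent.CA9.UB.pyth_upper k n α hk hn h0 h1)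
    (Pool.Agent.CA9.UB.pyth_lower k n α hk hn h0 h1)

end Pool.Agent.Results.MP_ca9be0_an.Exact
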